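import Pool.Agent.Y996.OT.Asm
import Pool.Agent.Y996.OT.ChiP
import Pool.Agent.Y996.OT.GapP
import Pool.Agent.Y996.OT.MinP
import Pool.Agent.Y996.OT.RandP

/-!
# Almost perfect tilings in ordered graphs: the error can be nearly linear

Let `KT T` be the ordered complete tripartite graph whose parts are three intervals of `T`
vertices; its parameter `χ*_cr` is `3`.  For `T ≥ 2` there are arbitrarily large ordered graphs
`G` with minimum degree at least `(1 - 1/χ*_cr) n = 2n/3` in which every `KT T`-tiling misses at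
least `n ^ (1 - 2/(T+1)) / 256` vertices.  So for every `ε > 0` the error in the theorem on almost
perfect tilings of ordered graphs can be as large as `n ^ (1 - ε)`, while it is always `o(n)`.

Idea: in the graph `big a s F` of the starting file (three consecutive intervals, the last one
longer by `2 s` than the first one and containing a graph `F` of minimum degree `s`) every copy of
`KT T` has its first `T` vertices in the first interval, as soon as `F` contains no `K_{T,T}`.
A graph `F` without `K_{T,T}` on `m` vertices with minimum degree of order `m ^ (1 - 2/(T+1))` is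
obtained from a random graph by deleting an edge of each `K_{T,T}` and passing to a subgraph.
-/

namespace Pool.Agent.Results.MP_ced62d_co.NearlyLinearLeftover

open Pool.Agent.H730R4 Pool.Agent.Y996.OT

theorem deg_real {T n : ℕ} (hT : 1 ≤ T) (G : SimpleGraph (Fin n)) (v : Fin n)
    (h : 2 * n ≤ 3 * (G.neighborSet v).ncard) :
    (1 - 1 / chiStarCr (KT T)) * (n : ℝ) ≤ ((G.neighborSet v).ncard : ℝ) := by
  rw [chi T hT]
  have h' : (2 : ℝ) * n ≤ 3 * ((G.neighborSet v).ncard : ℝ) := by exact_mod_cast h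
  linarith

/-- **Theorem.** (1) For every `T ≥ 2` and every `N` there is an ordered graph `G` on `n ≥ N`
vertices with minimum degree at least `(1 - 1/χ*_cr(KT T)) n` in which every `KT T`-tiling misses
at least `n ^ (1 - 2/(T+1)) / 256` vertices. (2) For every `ε > 0` there is `T` such that, for
every `N`, there is such a `G` in which every `KT T`-tiling misses at least `n ^ (1 - ε)`
vertices. (3) In particular the answer to the question is negative. -/
theorem result :
    (∀ T : ℕ, 2 ≤ T → chiStarCr (KT T) = 3 ∧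
      ∀ N : ℕ, ∃ (n : ℕ) (G : SimpleGraph (Fin n)), N ≤ n ∧
        (∀ v, (1 - 1 / chiStarCr (KT T)) * (n : ℝ) ≤ ((G.neighborSet v).ncard : ℝ)) ∧
        ∀ P : Set (Fin (3 * T) → Fin n), IsTiling (KT T) G P →
          (n : ℝ) ^ (1 - 2 / ((T : ℝ) + 1)) / 256 ≤ (((covered P)ᶜ).ncard : ℝ)) ∧
    (∀ ε : ℝ, 0 < ε → ∃ (h : ℕ) (H : SimpleGraph (Fin h)),
      ∀ N : ℕ, ∃ (n : ℕ) (G : SimpleGraph (Fin n)), N ≤ n ∧
        (∀ v, (1 - 1 / chiStarCr H) * (n : ℝ) ≤ ((G.neighborSet v).ncard : ℝ)) ∧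
        ∀ P : Set (Fin h → Fin n), IsTiling H G P →
          (n : ℝ) ^ (1 - ε) ≤ (((covered P)ᶜ).ncard : ℝ)) ∧
    ¬ (∀ (h : ℕ) (H : SimpleGraph (Fin h)), ∃ C : ℕ, ∀ (n : ℕ) (G : SimpleGraph (Fin n)),
        (∀ v, (1 - 1 / chiStarCr H) * (n : ℝ) ≤ ((G.neighborSet v).ncard : ℝ)) →
        ∃ P : Set (Fin h → Fin n), IsTiling H G P ∧ ((covered P)ᶜ).ncard ≤ C) := by
  have h2 : ∀ ε : ℝ, 0 < ε → ∃ (h : ℕ) (H : SimpleGraph (Fin h)),
      ∀ N : ℕ, ∃ (n : ℕ) (G : SimpleGraph (Fin n)), N ≤ n ∧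
        (∀ v, (1 - 1 / chiStarCr H) * (n : ℝ) ≤ ((G.neighborSet v).ncard : ℝ)) ∧
        ∀ P : Set (Fin h → Fin n), IsTiling H G P →
          (n : ℝ) ^ (1 - ε) ≤ (((covered P)ᶜ).ncard : ℝ) := by
    intro ε hε
    obtain ⟨T, hT, hN⟩ := nearly gap rand mind ε hε
    refine ⟨3 * T, KT T, fun N => ?_⟩
    obtain ⟨n, hn, G, hdeg, hP⟩ := hN N
    exact ⟨n, G, hn, fun v => deg_real (by omega) G v (hdeg v), hP⟩
  refine ⟨?_, h2, ?_⟩
  · intro T hT
    refine ⟨chi T (by omega), fun N => ?_⟩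
    obtain ⟨n, hn, G, hdeg, hP⟩ := power gap rand mind T hT N
    refine ⟨n, G, hn, fun v => deg_real (by omega) G v (hdeg v), fun P hPt => ?_⟩
    have := hP P hPt
    rw [div_eq_mul_one_div, mul_comm]
    exact this
  · intro hall
    obtain ⟨h, H, hH⟩ := h2 (1 / 2) (by norm_num)
    obtain ⟨C, hC⟩ := hall h H
    obtain ⟨n, G, hn, hdeg, hP⟩ := hH ((C + 1) ^ 2)
    obtain ⟨P, hPt, hPC⟩ := hC n G hdeg
    have h3 := hP P hPt
    have h4 : ((C : ℝ) + 1) ≤ (n : ℝ) ^ (1 - 1 / 2 : ℝ) := by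
      have h5 : (((C : ℝ) + 1) ^ 2) ≤ n := by exact_mod_cast hn
      have h6 : (1 - 1 / 2 : ℝ) = 1 / 2 := by norm_num
      rw [h6, ← Real.sqrt_eq_rpow]
      exact Real.le_sqrt_of_sq_le h5
    have h7 : (((covered P)ᶜ).ncard : ℝ) ≤ C := by exact_mod_cast hPC
    linarith

end Pool.Agent.Results.MP_ced62d_co.NearlyLinearLeftover
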